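import Pool.Agent.MP_d84343_gt.Quat
open scoped Manifold ContDiff Bundle Topology Quaternion
open Bundle Metric Module

noncomputable section

namespace Pool.Agent.MP_d84343_gt

/-- `ℍ^{m+1}` with the Euclidean norm. -/
abbrev Hm (m : ℕ) : Type := PiLp 2 (fun _ : Fin (m+1) => ℍ[ℝ])

/-- the real part of the zeroth coordinate -/
def re0 (m : ℕ) : Hm m →ₗ[ℝ] ℝ where
  toFun p := (p 0).re
  map_add' p q := rfl
  map_smul' c p := by simp

/-- `Im ℍ ⊕ ℍ^m` -/
def S (m : ℕ) : Submodule ℝ (Hm m) := LinearMap.ker (re0 m)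

theorem mem_S {m : ℕ} {p : Hm m} : p ∈ S m ↔ (p 0).re = 0 := Iff.rfl

theorem finrank_Hm (m : ℕ) : finrank ℝ (Hm m) = 4 * m + 4 := by
  rw [LinearEquiv.finrank_eq (WithLp.linearEquiv 2 ℝ _), Module.finrank_pi_fintype]
  simp [Quaternion.finrank_eq_four]
  ring

instance factS (m : ℕ) : Fact (finrank ℝ (S m) = (4 * m + 2) + 1) := by
  constructor
  have h := LinearMap.finrank_range_add_finrank_ker (re0 m)
  have hs : LinearMap.range (re0 m) = ⊤ := by
    rw [LinearMap.range_eq_top]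
    intro r
    exact ⟨WithLp.toLp 2 (fun _ => (r : ℍ[ℝ])), by simp [re0]⟩
  rw [hs, finrank_top, finrank_self, finrank_Hm] at h
  change finrank ℝ (LinearMap.ker (re0 m)) = _
  omega

/-- the (nonlinear in `q`) map defining the action -/
def fact {m : ℕ} (q : ℍ[ℝ]) (p : Hm m) : Hm m :=
  WithLp.toLp 2 (fun i => (if i = 0 then q else 1) * p i * star q)

theorem fact_apply {m : ℕ} (q : ℍ[ℝ]) (p : Hm m) (i : Fin (m+1)) :
    fact q p i = (if i = 0 then q else 1) * p i * star q := rfl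

theorem fact_add {m : ℕ} (q : ℍ[ℝ]) (p p' : Hm m) : fact q (p + p') = fact q p + fact q p' := by
  ext1 i
  simp only [fact_apply, PiLp.add_apply, mul_add, add_mul]

theorem fact_smul {m : ℕ} (q : ℍ[ℝ]) (c : ℝ) (p : Hm m) : fact q (c • p) = c • fact q p := by
  ext1 i
  simp only [fact_apply, PiLp.smul_apply, mul_smul_comm, smul_mul_assoc]

theorem norm_fact {m : ℕ} (g : Gq) (p : Hm m) : ‖fact (g : ℍ[ℝ]) p‖ = ‖p‖ := by
  rw [PiLp.norm_eq_of_L2, PiLp.norm_eq_of_L2]
  congr 1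
  refine Finset.sum_congr rfl fun i _ => ?_
  rw [fact_apply, norm_mul, norm_mul, norm_star, norm_Gq]
  split_ifs <;> simp

theorem fact_mul {m : ℕ} (q q' : ℍ[ℝ]) (p : Hm m) : fact (q * q') p = fact q (fact q' p) := by
  ext1 i
  simp only [fact_apply, star_mul]
  split_ifs <;> simp [mul_assoc]

theorem fact_one {m : ℕ} (p : Hm m) : fact 1 p = p := by
  ext1 i
  simp [fact_apply]

theorem re_mul_comm (a b : ℍ[ℝ]) : (a * b).re = (b * a).re := by
  simp only [Quaternion.re_mul]; ring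

theorem fact_mem {m : ℕ} (g : Gq) {p : Hm m} (hp : p ∈ S m) : fact (g : ℍ[ℝ]) p ∈ S m := by
  rw [mem_S] at hp ⊢
  rw [fact_apply, if_pos rfl, re_mul_comm, ← mul_assoc, star_mul_self_Gq, one_mul, hp]

/-- the action by linear isometries of `S m` -/
def lin {m : ℕ} (g : Gq) : S m →ₗᵢ[ℝ] S m where
  toFun p := ⟨fact (g : ℍ[ℝ]) p, fact_mem g p.2⟩
  map_add' p p' := Subtype.ext (fact_add _ _ _)
  map_smul' c p := Subtype.ext (fact_smul _ _ _)
  norm_map' p := by
    rw [Submodule.coe_norm, Submodule.coe_norm]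
    exact norm_fact g (p : Hm m)

theorem coe_lin {m : ℕ} (g : Gq) (p : S m) : ((lin g p : S m) : Hm m) = fact (g : ℍ[ℝ]) p := rfl

/-- The sphere `S^{4m+2}`. -/
abbrev Mq (m : ℕ) : Type := sphere (0 : S m) 1

/-- the action on the sphere -/
instance actMq (m : ℕ) : MulAction Gq (Mq m) where
  smul g x := ⟨lin g (x : S m), by
    rw [mem_sphere_zero_iff_norm, (lin g).norm_map, norm_eq_of_mem_sphere]⟩
  one_smul x := Subtype.ext (Subtype.ext (fact_one _))
  mul_smul g h x := Subtype.ext (Subtype.ext (fact_mul _ _ _))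

theorem coe_smul {m : ℕ} (g : Gq) (x : Mq m) : ((g • x : Mq m) : S m) = lin g (x : S m) := rfl

theorem coe_coe_smul {m : ℕ} (g : Gq) (x : Mq m) :
    (((g • x : Mq m) : S m) : Hm m) = fact (g : ℍ[ℝ]) ((x : S m) : Hm m) := rfl

end Pool.Agent.MP_d84343_gt
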