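import Mathlib

open scoped Manifold ContDiff Bundle
open Bundle Metric Module VectorField

namespace Pool.Agent.MP_d84343_gt

noncomputable section

section Action

variable {W V : Type} [NormedAddCommGroup W] [NormedSpace ℝ W]
  [NormedAddCommGroup V] [NormedSpace ℝ V]
  (G : Type) [Group G] {M : Type} [MulAction G M]

/-- The rank of a linear map. -/
def rk {A B : Type} [AddCommGroup A] [Module ℝ A] [AddCommGroup B] [Module ℝ B]
    (f : A →ₗ[ℝ] B) : ℕ :=
  finrank ℝ (LinearMap.range f)

variable (W V) in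
/-- The dimension of the orbit of `x`: the rank at `1` of the orbit map `g ↦ g • x`. -/
def orbitDim [TopologicalSpace G] [ChartedSpace W G] [TopologicalSpace M] [ChartedSpace V M]
    (x : M) : ℕ :=
  rk (mfderiv 𝓘(ℝ, W) 𝓘(ℝ, V) (fun g : G => g • x) 1).toLinearMap

/-- `x` lies on a principal orbit: its isotropy group is conjugate to a subgroup of the isotropy
group of every other point. -/
def IsPrincipal (x : M) : Prop :=
  ∀ y : M, ∃ a : G, ∀ h ∈ MulAction.stabilizer G x, a * h * a⁻¹ ∈ MulAction.stabilizer G y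

variable (W V) in
/-- `x` lies on a singular orbit: an orbit of dimension strictly smaller than that of a
principal orbit. -/
def IsSingular [TopologicalSpace G] [ChartedSpace W G] [TopologicalSpace M] [ChartedSpace V M]
    (x : M) : Prop :=
  ∃ p : M, IsPrincipal G p ∧ orbitDim W V G x < orbitDim W V G p

end Action

section Riem

variable (V M : Type) [NormedAddCommGroup V] [NormedSpace ℝ V]
  [TopologicalSpace M] [ChartedSpace V M]

/-- Vector fields on `M`. -/
abbrev VF : Type := Π x : M, TangentSpace 𝓘(ℝ, V) x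

variable {V M} in
/-- The vector field `X` is smooth. -/
def SmoothVF [IsManifold 𝓘(ℝ, V) ∞ M] (X : VF V M) : Prop :=
  ContMDiff 𝓘(ℝ, V) 𝓘(ℝ, V).tangent ∞ (fun x => (⟨x, X x⟩ : TangentBundle 𝓘(ℝ, V) M))

/-- Smooth Riemannian metrics on `M`. -/
abbrev RiemMetric [IsManifold 𝓘(ℝ, V) ∞ M] : Type :=
  ContMDiffRiemannianMetric 𝓘(ℝ, V) ∞ V (fun x : M => TangentSpace 𝓘(ℝ, V) x)

variable {V M} in
/-- The inner product `g(v, w)` of two tangent vectors at `x`. -/
def gval [IsManifold 𝓘(ℝ, V) ∞ M] (g : RiemMetric V M) (x : M)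
    (v w : TangentSpace 𝓘(ℝ, V) x) : ℝ :=
  g.inner x v w

/-- Covariant derivatives (affine connections) on `M`. -/
abbrev Conn [IsManifold 𝓘(ℝ, V) ∞ M] : Type :=
  CovariantDerivative 𝓘(ℝ, V) V (fun x : M => TangentSpace 𝓘(ℝ, V) x)

variable {V M} in
/-- The vector field `∇_X Y`. -/
def nabla [IsManifold 𝓘(ℝ, V) ∞ M] (D : Conn V M) (X Y : VF V M) : VF V M :=
  fun x => D Y x (X x)

variable {V M} in
/-- `D` is the Levi-Civita connection of the Riemannian metric `g`: it is compatible with `g`
and torsion free (both tested on smooth vector fields). -/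
structure IsLeviCivita [IsManifold 𝓘(ℝ, V) ∞ M] (g : RiemMetric V M) (D : Conn V M) : Prop where
  metric : ∀ X Y Z : VF V M, SmoothVF X → SmoothVF Y → SmoothVF Z → ∀ x : M,
    mvfderiv 𝓘(ℝ, V) (fun y : M => gval g y (Y y) (Z y)) x (X x)
      = gval g x (nabla D X Y x) (Z x) + gval g x (Y x) (nabla D X Z x)
  torsionFree : ∀ X Y : VF V M, SmoothVF X → SmoothVF Y → ∀ x : M,
    nabla D X Y x - nabla D Y X x = mlieBracket 𝓘(ℝ, V) X Y x

/-- Trilinear maps `T × T × T → T`, written `R u v w`. -/
abbrev Trilin (T : Type) [AddCommGroup T] [Module ℝ T] : Type := T →ₗ[ℝ] T →ₗ[ℝ] T →ₗ[ℝ] T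

/-- The trace of the endomorphism `u ↦ R(u, v)w`. -/
def ricciForm {T : Type} [AddCommGroup T] [Module ℝ T] (R : Trilin T) (v w : T) : ℝ :=
  LinearMap.trace ℝ T ((R.flip v).flip w)

variable {V M} in
/-- `R` is the Riemann curvature tensor of the connection `D`: for all smooth vector fields
`X`, `Y`, `Z`, one has `R(X, Y)Z = ∇_X ∇_Y Z - ∇_Y ∇_X Z - ∇_[X, Y] Z`. -/
def IsCurvature [IsManifold 𝓘(ℝ, V) ∞ M] (D : Conn V M)
    (R : Π x : M, Trilin (TangentSpace 𝓘(ℝ, V) x)) : Prop :=
  ∀ X Y Z : VF V M, SmoothVF X → SmoothVF Y → SmoothVF Z → ∀ x : M,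
    R x (X x) (Y x) (Z x)
      = nabla D X (nabla D Y Z) x - nabla D Y (nabla D X Z) x
        - nabla D (fun y => mlieBracket 𝓘(ℝ, V) X Y y) Z x

variable {V M} in
/-- The Riemannian metric `g` has positive Ricci curvature: the Ricci tensor
`Ric(v, w) = tr(u ↦ R(u, v)w)` of the curvature tensor `R` of the Levi-Civita connection of `g`
satisfies `Ric(v, v) > 0` for all nonzero tangent vectors `v`. -/
def HasPositiveRicci [IsManifold 𝓘(ℝ, V) ∞ M] (g : RiemMetric V M) : Prop :=
  ∃ D : Conn V M, IsLeviCivita g D ∧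
    ∃ R : Π x : M, Trilin (TangentSpace 𝓘(ℝ, V) x), IsCurvature D R ∧
      ∀ (x : M) (v : TangentSpace 𝓘(ℝ, V) x), v ≠ 0 → 0 < ricciForm (R x) v v

variable {V M} in
/-- The Riemannian metric `g` is invariant: `G` acts by isometries of `g`. -/
def IsInvariant (G : Type) [Group G] [MulAction G M] [IsManifold 𝓘(ℝ, V) ∞ M]
    (g : RiemMetric V M) : Prop :=
  ∀ (a : G) (x : M) (v w : TangentSpace 𝓘(ℝ, V) x),
    gval g (a • x) (mfderiv 𝓘(ℝ, V) 𝓘(ℝ, V) (fun y : M => a • y) x v)
      (mfderiv 𝓘(ℝ, V) 𝓘(ℝ, V) (fun y : M => a • y) x w) = gval g x v w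

end Riem

/-- `G` is a compact Lie group (modelled on the finite dimensional space `W`) acting smoothly on
the closed connected smooth manifold `M` (modelled on the finite dimensional space `V`), and `M`
is a `G`-manifold with a single singular orbit, of cohomogeneity `c`: there are principal orbits,
all of them of codimension `c`; there is exactly one singular orbit; and there are only finitely
many non-principal orbits. -/
structure SingleSingularOrbit (c : ℕ)
    (W V : Type) [NormedAddCommGroup W] [NormedSpace ℝ W] [NormedAddCommGroup V] [NormedSpace ℝ V]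
    (G : Type) [Group G] [TopologicalSpace G] [ChartedSpace W G]
    (M : Type) [TopologicalSpace M] [ChartedSpace V M] [MulAction G M] : Prop where
  finW : FiniteDimensional ℝ W
  finV : FiniteDimensional ℝ V
  lieGroup : LieGroup 𝓘(ℝ, W) ∞ G
  compactGroup : CompactSpace G
  t2Group : T2Space G
  compact : CompactSpace M
  t2 : T2Space M
  connected : ConnectedSpace M
  smooth : ContMDiff (𝓘(ℝ, W).prod 𝓘(ℝ, V)) 𝓘(ℝ, V) ∞ (fun p : G × M => p.1 • p.2)
  exists_principal : ∃ x : M, IsPrincipal G x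
  cohomogeneity : ∀ x : M, IsPrincipal G x → orbitDim W V G x + c = finrank ℝ V
  single_singular :
    {O : Set M | ∃ x : M, IsSingular W V G x ∧ O = MulAction.orbit G x}.encard = 1
  finite_nonprincipal :
    {O : Set M | ∃ x : M, ¬ IsPrincipal G x ∧ O = MulAction.orbit G x}.Finite

end

end Pool.Agent.MP_d84343_gt
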