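import Pool.Agent.MP_d84343_gt.Smooth
import Pool.Agent.MP_d84343_gt.Defs
open scoped Manifold ContDiff Bundle Topology Quaternion
open Bundle Metric Module

noncomputable section

namespace Pool.Agent.MP_d84343_gt

section gen
variable {E₀ : Type*} [NormedAddCommGroup E₀] [NormedSpace ℝ E₀] {H₀ : Type*} [TopologicalSpace H₀]
  {I : ModelWithCorners ℝ E₀ H₀} {N : Type*} [TopologicalSpace N] [ChartedSpace H₀ N]
  {E₁ : Type*} [NormedAddCommGroup E₁] [NormedSpace ℝ E₁] {H₁ : Type*} [TopologicalSpace H₁]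
  {J : ModelWithCorners ℝ E₁ H₁} {M : Type*} [TopologicalSpace M] [ChartedSpace H₁ M]
  {F : Type*} [NormedAddCommGroup F] [NormedSpace ℝ F]
  {F' : Type*} [NormedAddCommGroup F'] [NormedSpace ℝ F']

theorem mvfd_comp {f : N → M} {g : M → F} (x : N) (hg : MDifferentiableAt J 𝓘(ℝ, F) g (f x))
    (hf : MDifferentiableAt I J f x) (v : TangentSpace I x) :
    mvfderiv I (fun y => g (f y)) x v = mvfderiv J g (f x) (mfderiv I J f x v) :=
  mfderiv_comp_apply x hg hf v

theorem mvfd_postcomp {g : N → F} {L : F → F'} (x : N) (hL : DifferentiableAt ℝ L (g x))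
    (hg : MDifferentiableAt I 𝓘(ℝ, F) g x) (v : TangentSpace I x) :
    mvfderiv I (fun y => L (g y)) x v = fderiv ℝ L (g x) (mvfderiv I g x v) := by
  have h := mfderiv_comp_apply x hL.mdifferentiableAt hg v
  rw [mfderiv_eq_fderiv] at h
  exact h

end gen

theorem mdiffAt_smul_left {m : ℕ} (g : Gq) (x : Mq m) :
    MDifferentiableAt (𝓡 (4*m+2)) (𝓡 (4*m+2)) (fun y : Mq m => g • y) x := by
  have h : ContMDiff (𝓡 (4*m+2)) ((𝓡 3).prod (𝓡 (4*m+2))) ∞ (fun y : Mq m => (g, y)) :=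
    contMDiff_const.prodMk contMDiff_id
  have h2 := (contMDiff_act m).comp h
  exact (h2 x).mdifferentiableAt (by simp)

theorem mdiffAt_orbit {m : ℕ} (g : Gq) (x : Mq m) :
    MDifferentiableAt (𝓡 3) (𝓡 (4*m+2)) (fun g : Gq => g • x) g := by
  have h : ContMDiff (𝓡 3) ((𝓡 3).prod (𝓡 (4*m+2))) ∞ (fun g : Gq => (g, x)) :=
    contMDiff_id.prodMk contMDiff_const
  have h2 := (contMDiff_act m).comp h
  exact (h2 g).mdifferentiableAt (by simp)

theorem iota_mfderiv_smul {m : ℕ} (g : Gq) (x : Mq m) (v : TangentSpace (𝓡 (4*m+2)) x) :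
    iota (g • x) (mfderiv (𝓡 (4*m+2)) (𝓡 (4*m+2)) (fun y : Mq m => g • y) x v)
      = lin g (iota x v) := by
  have h1 := mvfd_comp (g := ((↑) : Mq m → S m)) (f := fun y : Mq m => g • y) x (coe_mdiffAt _)
    (mdiffAt_smul_left g x) v
  have h2 := mvfd_postcomp (g := ((↑) : Mq m → S m)) (L := lin g) x
    ((lin g).toContinuousLinearMap.differentiableAt) (coe_mdiffAt x) v
  have h3 : fderiv ℝ (lin g : S m → S m) (x : S m) = (lin g).toContinuousLinearMap :=
    (lin g).toContinuousLinearMap.fderiv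
  rw [h3] at h2
  exact h1.symm.trans h2

theorem isInvariant_round (m : ℕ) :
    IsInvariant (V := EuclideanSpace ℝ (Fin (4*m+2))) (M := Mq m) Gq (roundMetric (S m) (4*m+2)) := by
  intro a x v w
  unfold gval
  rw [roundMetric_inner, roundMetric_inner, iota_mfderiv_smul, iota_mfderiv_smul]
  exact (lin a).inner_map_map _ _

end Pool.Agent.MP_d84343_gt
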