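import Pool.Agent.MP_d84343_gt.Invar
open scoped Manifold ContDiff Bundle Topology Quaternion
open Bundle Metric Module

noncomputable section

namespace Pool.Agent.MP_d84343_gt

theorem contDiff_fact_left {m : ℕ} (p : Hm m) : ContDiff ℝ ∞ (fun q : ℍ[ℝ] => fact q p) := by
  rw [contDiff_piLp]
  intro i
  have h1 : ContDiff ℝ ∞ (fun q : ℍ[ℝ] => (if i = 0 then q else 1)) := by
    split_ifs
    · exact contDiff_id
    · exact contDiff_const
  exact (h1.mul contDiff_const).mul contDiff_star_H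

attribute [local irreducible] fact

theorem fderiv_fact {m : ℕ} (p : Hm m) (h : ℍ[ℝ]) (i : Fin (m+1)) :
    (fderiv ℝ (fun q : ℍ[ℝ] => fact q p) 1 h : Hm m) i =
      (if i = 0 then h else 0) * p i + p i * star h := by
  have hd : HasFDerivAt (fun q : ℍ[ℝ] => fact q p) (fderiv ℝ (fun q : ℍ[ℝ] => fact q p) 1) 1 :=
    ((contDiff_fact_left p).differentiable (by simp) _).hasFDerivAt
  have hγ : HasDerivAt (fun t : ℝ => (1 : ℍ[ℝ]) + t • h) h 0 := by
    simpa using ((hasDerivAt_id (0:ℝ)).smul_const h).const_add (1 : ℍ[ℝ])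
  have h0 : (1 : ℍ[ℝ]) = (fun t : ℝ => (1 : ℍ[ℝ]) + t • h) 0 := by simp
  have h1 : HasDerivAt (fun t : ℝ => fact (1 + t • h) p)
      (fderiv ℝ (fun q : ℍ[ℝ] => fact q p) 1 h) 0 := by
    have hd' : HasFDerivAt (fun q : ℍ[ℝ] => fact q p) (fderiv ℝ (fun q : ℍ[ℝ] => fact q p) 1)
        ((fun t : ℝ => (1 : ℍ[ℝ]) + t • h) 0) := by
      rw [← h0]; exact hd
    exact hd'.comp_hasDerivAt (0:ℝ) hγ
  have h2 : HasDerivAt (fun t : ℝ => (fact (1 + t • h) p) i)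
      ((fderiv ℝ (fun q : ℍ[ℝ] => fact q p) 1 h : Hm m) i) 0 := by
    have hp : HasFDerivAt (fun q : Hm m => q i)
      (PiLp.proj 2 (fun _ : Fin (m+1) => ℍ[ℝ]) i : Hm m →L[ℝ] ℍ[ℝ]) (fact (1 + (0:ℝ) • h) p) :=
      (PiLp.proj 2 (fun _ : Fin (m+1) => ℍ[ℝ]) i : Hm m →L[ℝ] ℍ[ℝ]).hasFDerivAt
    exact hp.comp_hasDerivAt (0:ℝ) h1
  have h3 : HasDerivAt (fun t : ℝ => (if i = 0 then (1 : ℍ[ℝ]) + t • h else 1))
      (if i = 0 then h else 0) 0 := by
    split_ifs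
    · exact hγ
    · exact hasDerivAt_const _ _
  have h4 : HasDerivAt (fun t : ℝ => star ((1 : ℍ[ℝ]) + t • h)) (star h) 0 := by
    have : HasDerivAt (fun t : ℝ => (1 : ℍ[ℝ]) + t • star h) (star h) 0 := by
      simpa using ((hasDerivAt_id (0:ℝ)).smul_const (star h)).const_add (1 : ℍ[ℝ])
    convert this using 2 with t
    rw [star_add, star_one, Quaternion.star_smul]
  have h5 := (h3.mul_const (p i)).mul h4
  have h6 : (fun t : ℝ => (fact (1 + t • h) p) i) =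
      (fun t : ℝ => (if i = 0 then (1 : ℍ[ℝ]) + t • h else 1) * p i * star ((1 : ℍ[ℝ]) + t • h)) := by
    ext1 t; exact fact_apply _ _ _
  rw [h6] at h2
  have h7 := h2.unique h5
  rw [h7]
  simp

theorem orbit_deriv {m : ℕ} (x : Mq m) (h : TangentSpace (𝓡 3) (1 : Gq)) :
    ((iota ((1 : Gq) • x) (mfderiv (𝓡 3) (𝓡 (4*m+2)) (fun g : Gq => g • x) 1 h) : S m) : Hm m) =
      fderiv ℝ (fun q : ℍ[ℝ] => fact q ((x : S m) : Hm m)) 1 (iota (1 : Gq) h) := by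
  have h1 := mvfd_comp (g := ((↑) : Mq m → S m)) (f := fun g : Gq => g • x) (1 : Gq)
    (coe_mdiffAt _) (mdiffAt_orbit 1 x) h
  have hmd : MDifferentiableAt (𝓡 3) 𝓘(ℝ, S m) (fun g : Gq => ((g • x : Mq m) : S m)) 1 :=
    (coe_mdiffAt _).comp (1 : Gq) (mdiffAt_orbit 1 x)
  have h2 := mvfd_postcomp (g := (fun g : Gq => ((g • x : Mq m) : S m))) (L := (S m).subtypeL)
    (1 : Gq) ((S m).subtypeL.differentiableAt) hmd h
  have h3 := mvfd_postcomp (g := ((↑) : Gq → ℍ[ℝ]))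
    (L := (fun q : ℍ[ℝ] => fact q ((x : S m) : Hm m))) (1 : Gq)
    ((contDiff_fact_left _).differentiable (by simp) _) (coe_mdiffAt _) h
  have h4 : (fun g : Gq => (S m).subtypeL ((g • x : Mq m) : S m)) =
    (fun g : Gq => fact (g : ℍ[ℝ]) ((x : S m) : Hm m)) := by
    ext1 g; exact coe_coe_smul g x
  rw [h4, h3, ContinuousLinearMap.fderiv] at h2
  rw [h1] at h2
  exact h2.symm

end Pool.Agent.MP_d84343_gt
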