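import Pool.Agent.MP_d84343_gt.Orbits
open scoped Manifold ContDiff Bundle Topology Quaternion
open Bundle Metric Module VectorField

noncomputable section

namespace Pool.Agent.MP_d84343_gt

attribute [local irreducible] fact

theorem orbit_deriv_apply {m : ℕ} (x : Mq m) (h : TangentSpace (𝓡 3) (1 : Gq)) (i : Fin (m+1)) :
    ((iota ((1 : Gq) • x) (mfderiv (𝓡 3) (𝓡 (4*m+2)) (fun g : Gq => g • x) 1 h) : S m) : Hm m) i
      = (if i = 0 then iota (1 : Gq) h else 0) * cd x i + cd x i * star (iota (1 : Gq) h) := by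
  rw [orbit_deriv, fderiv_fact]
  rfl

theorem orbit_deriv_eq_zero_iff {m : ℕ} (x : Mq m) (h : TangentSpace (𝓡 3) (1 : Gq)) :
    mfderiv (𝓡 3) (𝓡 (4*m+2)) (fun g : Gq => g • x) 1 h = 0 ↔
      ∀ i, (if i = 0 then iota (1 : Gq) h else 0) * cd x i + cd x i * star (iota (1 : Gq) h) = 0 := by
  constructor
  · intro h0 i
    rw [← orbit_deriv_apply, h0, map_zero]
    rfl
  · intro h0
    apply iota_inj (n := 4*m+2) ((1 : Gq) • x)
    apply Subtype.ext
    ext1 i
    have h1 := (orbit_deriv_apply x h i).trans (h0 i)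
    rw [h1, map_zero]
    rfl

theorem finrank_T1 : finrank ℝ (TangentSpace (𝓡 3) (1 : Gq)) = 3 :=
  finrank_euclideanSpace_fin

theorem finT (n : ℕ) {M : Type*} [TopologicalSpace M] [ChartedSpace (EuclideanSpace ℝ (Fin n)) M]
    (x : M) : FiniteDimensional ℝ (TangentSpace (𝓡 n) x) :=
  inferInstanceAs (FiniteDimensional ℝ (EuclideanSpace ℝ (Fin n)))

theorem orbitDim_not_sing {m : ℕ} {x : Mq m} (hx : ¬ Sing x) :
    orbitDim (EuclideanSpace ℝ (Fin 3)) (EuclideanSpace ℝ (Fin (4*m+2))) Gq x = 3 := by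
  unfold Sing at hx
  push Not at hx
  obtain ⟨i, hi, hxi⟩ := hx
  unfold orbitDim rk
  rw [LinearMap.finrank_range_of_inj]
  · exact finrank_T1
  · rw [← LinearMap.ker_eq_bot, LinearMap.ker_eq_bot']
    intro h h0
    have h1 := (orbit_deriv_eq_zero_iff x h).mp h0 i
    rw [if_neg hi, zero_mul, zero_add] at h1
    have h2 := (mul_eq_zero.mp h1).resolve_left hxi
    have h3 : iota (1 : Gq) h = 0 := star_eq_zero.mp h2
    exact iota_inj (n := 3) (1 : Gq) (h3.trans (map_zero _).symm)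

theorem orbitDim_sing {m : ℕ} {x : Mq m} (hx : Sing x) :
    orbitDim (EuclideanSpace ℝ (Fin 3)) (EuclideanSpace ℝ (Fin (4*m+2))) Gq x < 3 := by
  unfold orbitDim rk
  have := finT 3 (1 : Gq)
  set T := (mfderiv (𝓡 3) (𝓡 (4*m+2)) (fun g : Gq => g • x) 1).toLinearMap with hT
  have h1 := LinearMap.finrank_range_add_finrank_ker T
  have h2 : finrank ℝ (TangentSpace (𝓡 3) (1 : Gq)) = 3 := finrank_T1
  rw [h2] at h1
  have h3 : 0 < finrank ℝ (LinearMap.ker T) := by
    obtain ⟨h, hh⟩ := exists_iota (n := 3) (1 : Gq) (cd x 0)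
    have h4 : (inner ℝ ((1 : Gq) : ℍ[ℝ]) (cd x 0) : ℝ) = 0 := by
      rw [Quaternion.inner_def]
      simp [re_cd_zero x]
    rw [h4, zero_smul, sub_zero] at hh
    have h5 : T h = 0 := by
      refine (orbit_deriv_eq_zero_iff x h).mpr fun i => ?_
      rw [hh]
      by_cases hi : i = 0
      · subst hi
        rw [if_pos rfl, star_im (re_cd_zero x), mul_neg, add_neg_cancel]
      · rw [hx i hi]; simp
    have h6 : h ≠ 0 := by
      intro h0
      rw [h0, map_zero] at hh
      have h7 := norm_cd_zero hx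
      rw [← hh] at h7
      simp at h7
    have h8 : Nontrivial (LinearMap.ker T) :=
      ⟨⟨h, LinearMap.mem_ker.mpr h5⟩, 0, fun h9 => h6 (congrArg Subtype.val h9)⟩
    exact finrank_pos
  omega

end Pool.Agent.MP_d84343_gt
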