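import Pool.Agent.MP_d84343_gt.OrbitDeriv
open scoped Manifold ContDiff Bundle Topology Quaternion
open Bundle Metric Module

noncomputable section

namespace Pool.Agent.MP_d84343_gt

attribute [local irreducible] fact

/-- `i`-th quaternionic coordinate of a point of the sphere -/
def cd {m : ℕ} (x : Mq m) (i : Fin (m+1)) : ℍ[ℝ] := ((x : S m) : Hm m) i

theorem cd_smul {m : ℕ} (g : Gq) (x : Mq m) (i : Fin (m+1)) :
    cd (g • x) i = (if i = 0 then (g : ℍ[ℝ]) else 1) * cd x i * star (g : ℍ[ℝ]) := by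
  unfold cd
  rw [coe_coe_smul, fact_apply]

theorem cd_ext {m : ℕ} {x y : Mq m} (h : ∀ i, cd x i = cd y i) : x = y := by
  apply Subtype.ext
  apply Subtype.ext
  ext1 i
  exact h i

theorem re_cd_zero {m : ℕ} (x : Mq m) : (cd x 0).re = 0 := mem_S.mp (x : S m).2

theorem sum_norm_cd {m : ℕ} (x : Mq m) : ∑ i, ‖cd x i‖ ^ 2 = 1 := by
  have h : ‖(x : S m)‖ = 1 := norm_eq_of_mem_sphere x
  rw [Submodule.coe_norm, PiLp.norm_eq_of_L2, Real.sqrt_eq_one] at h
  exact h

/-- the singular points -/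
def Sing {m : ℕ} (x : Mq m) : Prop := ∀ i, i ≠ 0 → cd x i = 0

theorem norm_cd_zero {m : ℕ} {x : Mq m} (hx : Sing x) : ‖cd x 0‖ = 1 := by
  have h := sum_norm_cd x
  rw [Finset.sum_eq_single 0] at h
  · have := norm_nonneg (cd x 0)
    nlinarith
  · intro i _ hi
    rw [hx i hi]; simp
  · intro h; exact absurd (Finset.mem_univ _) h

theorem coe_eq_one {g : Gq} (h : (g : ℍ[ℝ]) = 1) : g = 1 := Subtype.ext h

/-- free points -/
theorem stab_of_not_sing {m : ℕ} {x : Mq m} (hx : ¬ Sing x) {g : Gq} (hg : g • x = x) : g = 1 := by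
  unfold Sing at hx
  push Not at hx
  obtain ⟨i, hi, hxi⟩ := hx
  have h := congrArg (fun y => cd y i) hg
  simp only [cd_smul, if_neg hi, one_mul] at h
  have h2 : cd x i * (star (g : ℍ[ℝ]) - 1) = 0 := by rw [mul_sub, h, mul_one, sub_self]
  have h3 : star (g : ℍ[ℝ]) - 1 = 0 := (mul_eq_zero.mp h2).resolve_left hxi
  have h4 : star (g : ℍ[ℝ]) = 1 := sub_eq_zero.mp h3
  apply coe_eq_one
  rw [← star_star (g : ℍ[ℝ]), h4, star_one]

/-- the zeroth coordinate of a singular point, as a group element -/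
def gOf {m : ℕ} {x : Mq m} (hx : Sing x) : Gq :=
  ⟨cd x 0, by rw [mem_sphere_zero_iff_norm, norm_cd_zero hx]⟩

theorem star_im {q : ℍ[ℝ]} (h : q.re = 0) : star q = - q := by
  ext <;> simp [h]

theorem gOf_smul {m : ℕ} {x : Mq m} (hx : Sing x) : gOf hx • x = x := by
  apply cd_ext
  intro i
  rw [cd_smul]
  by_cases hi : i = 0
  · subst hi
    rw [if_pos rfl]
    have h : (gOf hx : ℍ[ℝ]) = cd x 0 := rfl
    rw [mul_assoc, ← h, self_mul_star_Gq, mul_one]
  · rw [hx i hi]; simp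

theorem gOf_ne_one {m : ℕ} {x : Mq m} (hx : Sing x) : gOf hx ≠ 1 := by
  intro h
  have h1 : cd x 0 = 1 := congrArg (fun g : Gq => (g : ℍ[ℝ])) h
  have h2 := re_cd_zero x
  rw [h1] at h2
  simp at h2

/-- constructor for points of the sphere -/
def mkM {m : ℕ} (c : Fin (m+1) → ℍ[ℝ]) (h0 : (c 0).re = 0) (h1 : ∑ i, ‖c i‖ ^ 2 = 1) : Mq m :=
  ⟨⟨WithLp.toLp 2 c, mem_S.mpr h0⟩, by
    rw [mem_sphere_zero_iff_norm, Submodule.coe_norm, PiLp.norm_eq_of_L2, Real.sqrt_eq_one]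
    exact h1⟩

theorem cd_mkM {m : ℕ} (c : Fin (m+1) → ℍ[ℝ]) (h0 : (c 0).re = 0) (h1 : ∑ i, ‖c i‖ ^ 2 = 1)
    (i : Fin (m+1)) : cd (mkM c h0 h1) i = c i := rfl

theorem exists_not_sing {m : ℕ} (hm : 1 ≤ m) : ∃ x : Mq m, ¬ Sing x := by
  let i₁ : Fin (m+1) := ⟨1, by omega⟩
  have hi₁ : i₁ ≠ 0 := by
    intro h
    have := congrArg Fin.val h
    simp [i₁] at this
  refine ⟨mkM (fun i => if i = i₁ then 1 else 0) ?_ ?_, ?_⟩
  · simp [hi₁.symm]
  · simp [apply_ite]
  · intro h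
    have := h i₁ hi₁
    rw [cd_mkM] at this
    simp at this

/-- the imaginary unit `i` -/
def qi : ℍ[ℝ] := ⟨0, 1, 0, 0⟩
/-- the imaginary unit `j` -/
def qj : ℍ[ℝ] := ⟨0, 0, 1, 0⟩

theorem norm_qi : ‖qi‖ = 1 := by
  have h := Quaternion.normSq_eq_norm_mul_self qi
  rw [Quaternion.normSq_def'] at h
  simp only [qi] at h
  have h2 := norm_nonneg qi
  simp only [qi] at h2 ⊢
  nlinarith

theorem norm_qj : ‖qj‖ = 1 := by
  have h := Quaternion.normSq_eq_norm_mul_self qj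
  rw [Quaternion.normSq_def'] at h
  simp only [qj] at h
  have h2 := norm_nonneg qj
  simp only [qj] at h2 ⊢
  nlinarith

theorem exists_sing (m : ℕ) : ∃ x : Mq m, Sing x := by
  refine ⟨mkM (fun i => if i = 0 then qi else 0) ?_ ?_, ?_⟩
  · simp [qi]
  · simp [apply_ite, norm_qi]
  · intro i hi
    rw [cd_mkM]
    simp [hi]

theorem isPrincipal_iff {m : ℕ} (hm : 1 ≤ m) (x : Mq m) : IsPrincipal Gq x ↔ ¬ Sing x := by
  constructor
  · intro hp hs
    obtain ⟨y, hy⟩ := exists_not_sing hm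
    obtain ⟨a, ha⟩ := hp y
    have h1 := ha (gOf hs) (gOf_smul hs)
    have h2 := stab_of_not_sing hy h1
    have h3 : gOf hs = 1 := by
      have h4 : a * gOf hs * a⁻¹ = 1 := h2
      rw [mul_inv_eq_one] at h4
      exact mul_eq_left.mp h4
    exact gOf_ne_one hs h3
  · intro hs y
    refine ⟨1, fun h hh => ?_⟩
    have h1 : h = 1 := stab_of_not_sing hs hh
    rw [h1]
    simp

/-- conjugation is transitive on unit imaginary quaternions, generic case -/
theorem conj_aux {v w : ℍ[ℝ]} (hv : v.re = 0) (hw : w.re = 0) (nv : ‖v‖ = 1) (nw : ‖w‖ = 1)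
    (hne : w ≠ -v) : ∃ g : Gq, (g : ℍ[ℝ]) * v * star (g : ℍ[ℝ]) = w := by
  have sq : ∀ u : ℍ[ℝ], u.re = 0 → ‖u‖ = 1 → u * u = -1 := by
    intro u hu nu
    have h1 : u * star u = 1 := by
      rw [Quaternion.self_mul_star, Quaternion.normSq_eq_norm_mul_self, nu]; simp
    rw [star_im hu, mul_neg] at h1
    rw [← h1, neg_neg]
  have hv2 := sq v hv nv
  have hw2 := sq w hw nw
  set q : ℍ[ℝ] := 1 - w * v with hq
  have hq0 : q ≠ 0 := by
    intro h0
    apply hne
    have h1 : w * v = 1 := (sub_eq_zero.mp h0).symm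
    have h2 : w * v * v = v := by rw [h1, one_mul]
    rw [mul_assoc, hv2, mul_neg, mul_one] at h2
    rw [← h2, neg_neg]
  have hqn : ‖q‖ ≠ 0 := norm_ne_zero_iff.mpr hq0
  have hcomm : q * v = w * q := by
    rw [hq, sub_mul, mul_sub, mul_assoc, hv2, ← mul_assoc w w v, hw2]
    simp
    abel
  refine ⟨⟨(‖q‖⁻¹ : ℝ) • q, ?_⟩, ?_⟩
  · rw [mem_sphere_zero_iff_norm, norm_smul, norm_inv, norm_norm, inv_mul_cancel₀ hqn]
  · have h1 : ∀ g : Gq, (g : ℍ[ℝ]) * v = w * g → (g : ℍ[ℝ]) * v * star (g : ℍ[ℝ]) = w := by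
      intro g hg
      rw [hg, mul_assoc, self_mul_star_Gq, mul_one]
    apply h1
    simp only [smul_mul_assoc, mul_smul_comm, hcomm]

theorem conj_trans {v w : ℍ[ℝ]} (hv : v.re = 0) (hw : w.re = 0) (nv : ‖v‖ = 1) (nw : ‖w‖ = 1) :
    ∃ g : Gq, (g : ℍ[ℝ]) * v * star (g : ℍ[ℝ]) = w := by
  by_cases hne : w = -v
  · -- go through a third vector
    have key : ∀ u : ℍ[ℝ], u.re = 0 → ‖u‖ = 1 → u ≠ v → u ≠ -v →
        ∃ g : Gq, (g : ℍ[ℝ]) * v * star (g : ℍ[ℝ]) = w := by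
      intro u hu nu h1 h2
      obtain ⟨g, hg⟩ := conj_aux hv hu nv nu h2
      obtain ⟨g', hg'⟩ := conj_aux hu hw nu nw (by
        rw [hne]
        intro h
        exact h1 (neg_injective h).symm)
      refine ⟨g' * g, ?_⟩
      rw [Metric.unitSphere.coe_mul, star_mul]
      rw [← hg', ← hg]
      simp only [mul_assoc]
    by_cases h1 : qi = v ∨ qi = -v
    · refine key qj (by simp [qj]) norm_qj ?_ ?_
      · rintro h
        rcases h1 with h2 | h2
        · have := congrArg (fun q : ℍ[ℝ] => q.imI) (h.trans h2.symm)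
          simp [qi, qj] at this
        · have := congrArg (fun q : ℍ[ℝ] => q.imI) (h2.trans (congrArg (fun q => -q) h.symm))
          simp [qi, qj] at this
      · rintro h
        rcases h1 with h2 | h2
        · have := congrArg (fun q : ℍ[ℝ] => q.imI) (h.trans (congrArg (fun q => -q) h2.symm))
          simp [qi, qj] at this
        · have := congrArg (fun q : ℍ[ℝ] => q.imI) (h.trans h2.symm)
          simp [qi, qj] at this
    · push Not at h1
      exact key qi (by simp [qi]) norm_qi h1.1 h1.2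
  · exact conj_aux hv hw nv nw hne

theorem sing_orbit {m : ℕ} {x y : Mq m} (hx : Sing x) (hy : Sing y) :
    ∃ g : Gq, g • x = y := by
  obtain ⟨g, hg⟩ := conj_trans (re_cd_zero x) (re_cd_zero y) (norm_cd_zero hx) (norm_cd_zero hy)
  refine ⟨g, cd_ext fun i => ?_⟩
  rw [cd_smul]
  by_cases hi : i = 0
  · subst hi
    rw [if_pos rfl, hg]
  · rw [hx i hi, hy i hi]; simp

theorem sing_smul {m : ℕ} {x : Mq m} (hx : Sing x) (g : Gq) : Sing (g • x) := by
  intro i hi
  rw [cd_smul, hx i hi]; simp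

end Pool.Agent.MP_d84343_gt
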