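import Pool.Agent.MP_d84343_gt.RoundMetric
open scoped Manifold ContDiff Bundle Topology Quaternion
open Bundle Metric Module

noncomputable section

namespace Pool.Agent.MP_d84343_gt

instance factH : Fact (finrank ℝ ℍ[ℝ] = 3 + 1) := ⟨Quaternion.finrank_eq_four⟩

/-- The group of unit quaternions. -/
abbrev Gq : Type := sphere (0 : ℍ[ℝ]) 1

theorem norm_Gq (g : Gq) : ‖(g : ℍ[ℝ])‖ = 1 := norm_eq_of_mem_sphere g

theorem self_mul_star_Gq (g : Gq) : (g : ℍ[ℝ]) * star (g : ℍ[ℝ]) = 1 := by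
  rw [Quaternion.self_mul_star, Quaternion.normSq_eq_norm_mul_self, norm_Gq]
  simp

theorem star_mul_self_Gq (g : Gq) : star (g : ℍ[ℝ]) * (g : ℍ[ℝ]) = 1 := by
  rw [Quaternion.star_mul_self, Quaternion.normSq_eq_norm_mul_self, norm_Gq]
  simp

theorem coe_inv_Gq (g : Gq) : ((g⁻¹ : Gq) : ℍ[ℝ]) = star (g : ℍ[ℝ]) := by
  rw [Metric.unitSphere.coe_inv]
  exact inv_eq_of_mul_eq_one_right (self_mul_star_Gq g)

theorem contDiff_star_H : ContDiff ℝ ∞ (fun q : ℍ[ℝ] => star q) := by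
  apply IsBoundedLinearMap.contDiff
  refine ⟨⟨fun x y => star_add x y, fun c x => ?_⟩, 1, one_pos, fun x => ?_⟩
  · exact Quaternion.star_smul c x
  · rw [norm_star, one_mul]

instance lieGq : LieGroup (𝓡 3) ∞ Gq where
  contMDiff_mul := by
    apply ContMDiff.codRestrict_sphere
    let c : Gq → ℍ[ℝ] := (↑)
    have h₂ : ContMDiff (𝓘(ℝ, ℍ[ℝ]).prod 𝓘(ℝ, ℍ[ℝ])) 𝓘(ℝ, ℍ[ℝ]) ∞
        fun z : ℍ[ℝ] × ℍ[ℝ] => z.fst * z.snd := by
      rw [contMDiff_iff]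
      exact ⟨continuous_mul, fun x y => contDiff_mul.contDiffOn⟩
    suffices h₁ : ContMDiff ((𝓡 3).prod (𝓡 3)) (𝓘(ℝ, ℍ[ℝ]).prod 𝓘(ℝ, ℍ[ℝ])) ∞ (Prod.map c c) from
      h₂.comp h₁
    apply ContMDiff.prodMap <;> exact contMDiff_coe_sphere
  contMDiff_inv := by
    have h : ContMDiff (𝓡 3) 𝓘(ℝ, ℍ[ℝ]) ∞ (fun g : Gq => star (g : ℍ[ℝ])) :=
      contDiff_star_H.contMDiff.comp contMDiff_coe_sphere
    exact (h.codRestrict_sphere (fun g => by rw [mem_sphere_zero_iff_norm, norm_star,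
      norm_Gq])).congr (fun g => Subtype.ext (coe_inv_Gq g))

end Pool.Agent.MP_d84343_gt
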