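import Pool.Agent.MP_d84343_gt.RoundMetric
import Pool.Agent.MP_d84343_gt.Defs
open scoped Manifold ContDiff Bundle Topology
open Bundle Metric Module VectorField

noncomputable section

namespace Pool.Agent.MP_d84343_gt

section
variable {T : Type*} [AddCommGroup T] [Module ℝ T] 

/-- constant curvature one tensor -/
def constCurv (B : T →ₗ[ℝ] T →ₗ[ℝ] ℝ) : T →ₗ[ℝ] T →ₗ[ℝ] T →ₗ[ℝ] T :=
  LinearMap.mk₂ ℝ (fun u v => (B v).smulRight u - (B u).smulRight v)
    (fun u u' v => by ext w; simp; module)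
    (fun c u v => by ext w; simp; module)
    (fun u v v' => by ext w; simp; module)
    (fun c u v => by ext w; simp; module)

theorem constCurv_apply (B : T →ₗ[ℝ] T →ₗ[ℝ] ℝ) (u v w : T) :
    constCurv B u v w = B v w • u - B u w • v := rfl

theorem trace_constCurv [FiniteDimensional ℝ T] (B : T →ₗ[ℝ] T →ₗ[ℝ] ℝ) (v w : T) :
    LinearMap.trace ℝ T (((constCurv B).flip v).flip w) = (finrank ℝ T - 1 : ℝ) * B v w := by
  have h : ((constCurv B).flip v).flip w = (B v w) • LinearMap.id - (B.flip w).smulRight v := by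
    ext u
    simp [constCurv_apply]
  rw [h, map_sub, map_smul, LinearMap.trace_id, LinearMap.trace_smulRight]
  simp
  ring
end

section
variable {E : Type} [NormedAddCommGroup E] [InnerProductSpace ℝ E] {n : ℕ}
  [Fact (finrank ℝ E = n + 1)]

theorem isLeviCivita_round :
    IsLeviCivita (V := EuclideanSpace ℝ (Fin n)) (M := sphere (0:E) 1)
      (roundMetric E n) (sphCov E n) where
  metric X _ _ _ hY hZ x := sphCov_metric hY hZ x (X x)
  torsionFree _ _ hX hY x := sphCov_torsion hX hY x

/-- the round metric as a bilinear map -/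
def rB (x : sphere (0:E) 1) :
    TangentSpace (𝓡 n) x →ₗ[ℝ] TangentSpace (𝓡 n) x →ₗ[ℝ] ℝ :=
  LinearMap.mk₂ ℝ (fun v w => (inner ℝ (iota x v) (iota x w) : ℝ))
    (fun v v' w => by rw [map_add, inner_add_left])
    (fun c v w => by rw [map_smul, real_inner_smul_left, smul_eq_mul])
    (fun v w w' => by rw [map_add, inner_add_right])
    (fun c v w => by rw [map_smul, real_inner_smul_right, smul_eq_mul])

theorem rB_apply (x : sphere (0:E) 1) (v w : TangentSpace (𝓡 n) x) :
    rB x v w = inner ℝ (iota x v) (iota x w) := rfl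

/-- the curvature tensor of the round sphere -/
def rR (x : sphere (0:E) 1) :
    TangentSpace (𝓡 n) x →ₗ[ℝ] TangentSpace (𝓡 n) x →ₗ[ℝ] TangentSpace (𝓡 n) x →ₗ[ℝ]
      TangentSpace (𝓡 n) x :=
  constCurv (rB x)

theorem isCurvature_round :
    IsCurvature (V := EuclideanSpace ℝ (Fin n)) (M := sphere (0:E) 1) (sphCov E n) rR := by
  intro X Y Z hX hY hZ x
  exact (sphCov_curv hX hY hZ x).symm

theorem hasPositiveRicci_round (hn : 2 ≤ n) :
    HasPositiveRicci (V := EuclideanSpace ℝ (Fin n)) (M := sphere (0:E) 1) (roundMetric E n) := by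
  refine ⟨sphCov E n, isLeviCivita_round, rR, isCurvature_round, fun x v hv => ?_⟩
  have : FiniteDimensional ℝ (TangentSpace (𝓡 n) x) :=
    inferInstanceAs (FiniteDimensional ℝ (EuclideanSpace ℝ (Fin n)))
  have h1 : ricciForm (rR x) v v = (finrank ℝ (TangentSpace (𝓡 n) x) - 1 : ℝ) * rB x v v :=
    trace_constCurv (rB x) v v
  have h2 : finrank ℝ (TangentSpace (𝓡 n) x) = n := finrank_euclideanSpace_fin
  rw [h1, h2]
  apply mul_pos
  · have : (2:ℝ) ≤ n := by exact_mod_cast hn
    linarith
  · rw [rB_apply]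
    refine real_inner_self_pos.mpr fun h => hv ?_
    exact iota_inj x (h.trans (map_zero _).symm)

end

end Pool.Agent.MP_d84343_gt
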