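import Pool.Agent.MP_d84343_gt.SphereGeom
open scoped Manifold ContDiff Bundle Topology
open Bundle Metric Module VectorField ContinuousLinearMap

noncomputable section

namespace Pool.Agent.MP_d84343_gt

theorem contDiff_flip (E F G : Type*) [NormedAddCommGroup E] [NormedSpace ℝ E]
    [NormedAddCommGroup F] [NormedSpace ℝ F] [NormedAddCommGroup G] [NormedSpace ℝ G] :
    ContDiff ℝ ∞ (fun T : E →L[ℝ] F →L[ℝ] G => T.flip) := by
  apply IsBoundedLinearMap.contDiff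
  refine ⟨⟨fun x y => rfl, fun c x => rfl⟩, 1, one_pos, fun x => ?_⟩
  rw [one_mul]
  exact (ContinuousLinearMap.opNorm_flip x).le

variable {E : Type*} [NormedAddCommGroup E] [InnerProductSpace ℝ E] {n : ℕ}

def innB (E : Type*) [NormedAddCommGroup E] [InnerProductSpace ℝ E] : E →L[ℝ] E →L[ℝ] ℝ :=
  innerSL ℝ

def bil (n : ℕ) (E : Type*) [NormedAddCommGroup E] [InnerProductSpace ℝ E] 
   (L : EuclideanSpace ℝ (Fin n) →L[ℝ] E) :
   EuclideanSpace ℝ (Fin n) →L[ℝ] EuclideanSpace ℝ (Fin n) →L[ℝ] ℝ :=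
   (innB E).bilinearComp L L

theorem contDiff_bil : ContDiff ℝ ∞ (bil n E) := by
  have h0 : ContDiff ℝ ∞ (fun L : EuclideanSpace ℝ (Fin n) →L[ℝ] E => L) := contDiff_id
  have h1 : ContDiff ℝ ∞ (fun L : EuclideanSpace ℝ (Fin n) →L[ℝ] E => (innB E).comp L) :=
    contDiff_const.clm_comp h0
  have h2 : ContDiff ℝ ∞ (fun L : EuclideanSpace ℝ (Fin n) →L[ℝ] E => ((innB E).comp L).flip) :=
    (contDiff_flip (EuclideanSpace ℝ (Fin n)) E ℝ).comp h1
  have h3 : ContDiff ℝ ∞ (fun L : EuclideanSpace ℝ (Fin n) →L[ℝ] E =>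
     (((innB E).comp L).flip).comp L) := h2.clm_comp h0
  exact (contDiff_flip (EuclideanSpace ℝ (Fin n)) (EuclideanSpace ℝ (Fin n)) 
    ℝ).comp h3

variable  [Fact (finrank ℝ E = n + 1)]

def roundInner (x : sphere (0:E) 1) :
    TangentSpace (𝓡 n) x →L[ℝ] TangentSpace (𝓡 n) x →L[ℝ] ℝ :=
  (ContinuousLinearMap.precomp ℝ (iota x)) ∘L (innB E) ∘L (iota x)

theorem roundInner_apply (x : sphere (0:E) 1) (v w : TangentSpace (𝓡 n) x) :
    roundInner x v w = inner ℝ (iota x v) (iota x w) := rfl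

theorem contMDiff_roundInner : ContMDiff (𝓡 n) ((𝓡 n).prod 𝓘(ℝ, EuclideanSpace ℝ (Fin n) →L[ℝ] EuclideanSpace ℝ (Fin n) →L[ℝ] ℝ)) ∞
   (fun b : sphere (0:E) 1 ↦ TotalSpace.mk' (EuclideanSpace ℝ (Fin n) →L[ℝ] EuclideanSpace ℝ (Fin n) →L[ℝ] ℝ) (E := fun b : sphere (0:E) 1 => TangentSpace (𝓡 n) b →L[ℝ] TangentSpace (𝓡 n) b →L[ℝ] ℝ) b (roundInner b)) := by
  intro x
  rw [contMDiffAt_section]
  simp only [hom_trivializationAt_apply]
  have hA : ContMDiffAt (𝓡 n) 𝓘(ℝ, EuclideanSpace ℝ (Fin n) →L[ℝ] E) ∞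
     (inTangentCoordinates (𝓡 n) 𝓘(ℝ, E) id ((↑) : sphere (0:E) 1 → E)
       (mfderiv (𝓡 n) 𝓘(ℝ, E) ((↑) : sphere (0:E) 1 → E)) x) x :=
    ContMDiffAt.mfderiv_const (n := ∞) (contMDiff_coe_sphere x) (by simp)
  have hB : ContMDiffAt (𝓡 n) 𝓘(ℝ, EuclideanSpace ℝ (Fin n) →L[ℝ] EuclideanSpace ℝ (Fin n) →L[ℝ] ℝ) ∞
     (fun y => bil n E (inTangentCoordinates (𝓡 n) 𝓘(ℝ, E) id ((↑) : sphere (0:E) 1 → E)
       (mfderiv (𝓡 n) 𝓘(ℝ, E) ((↑) : sphere (0:E) 1 → E)) x y)) x := 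
    contDiff_bil.contMDiff.contMDiffAt.comp x hA
  refine hB.congr_of_eventuallyEq ?_
  have hnh : (trivializationAt (EuclideanSpace ℝ (Fin n)) (fun b : sphere (0:E) 1 =>
      TangentSpace (𝓡 n) b) x).baseSet ∈ 𝓝 x :=
    (Trivialization.open_baseSet _).mem_nhds (FiberBundle.mem_baseSet_trivializationAt' x)
  filter_upwards [hnh] with y hy
  have hy2 : y ∈ (trivializationAt (EuclideanSpace ℝ (Fin n) →L[ℝ] ℝ)
      (fun b : sphere (0:E) 1 => TangentSpace (𝓡 n) b →L[ℝ] ℝ) x).baseSet := by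
    simpa using hy
  ext v w
  simp only [inCoordinates, ContinuousLinearMap.comp_apply]
  rw [Trivialization.continuousLinearMapAt_apply, Trivialization.coe_linearMapAt_of_mem _ hy2]
  simp only [hom_trivializationAt_apply, inCoordinates, inTangentCoordinates, bil]
  simp
  rfl

/-- The round metric on the unit sphere, as a smooth Riemannian metric. -/
def roundMetric (E : Type*) [NormedAddCommGroup E] [InnerProductSpace ℝ E] (n : ℕ)
    [Fact (finrank ℝ E = n + 1)] :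
    ContMDiffRiemannianMetric (𝓡 n) ∞ (EuclideanSpace ℝ (Fin n))
      (fun x : sphere (0:E) 1 => TangentSpace (𝓡 n) x) where
  inner x := roundInner x
  symm x v w := by rw [roundInner_apply, roundInner_apply, real_inner_comm]
  pos x v hv := by
    rw [roundInner_apply]
    refine real_inner_self_pos.mpr fun h => hv ?_
    exact iota_inj x (h.trans (map_zero _).symm)
  isVonNBounded x := by
    refine ((NormedSpace.isVonNBounded_ball ℝ E 1).image (kappa (n := n) x)).subset ?_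
    intro v hv
    refine ⟨iota x v, ?_, kappa_iota x v⟩
    have h : inner ℝ (iota x v) (iota x v) < (1:ℝ) := hv
    rw [real_inner_self_eq_norm_sq] at h
    rw [mem_ball_zero_iff]
    nlinarith [norm_nonneg (iota x v)]
  contMDiff := contMDiff_roundInner

theorem roundMetric_inner (x : sphere (0:E) 1) (v w : TangentSpace (𝓡 n) x) :
    (roundMetric E n).inner x v w = inner ℝ (iota x v) (iota x w) := rfl

end Pool.Agent.MP_d84343_gt
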