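import Pool.Agent.MP_d84343_gt.Act
open scoped Manifold ContDiff Bundle Topology Quaternion
open Bundle Metric Module

noncomputable section

namespace Pool.Agent.MP_d84343_gt

section gen
variable {E₀ : Type*} [NormedAddCommGroup E₀] [NormedSpace ℝ E₀] {H₀ : Type*} [TopologicalSpace H₀]
  {I : ModelWithCorners ℝ E₀ H₀} {N : Type*} [TopologicalSpace N] [ChartedSpace H₀ N] 
  {V : Type*} [NormedAddCommGroup V] [InnerProductSpace ℝ V]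

theorem contMDiff_of_coe_submodule {W : Submodule ℝ V} [W.HasOrthogonalProjection] {f : N → W}
    (h : ContMDiff I 𝓘(ℝ, V) ∞ (fun x => (f x : V))) : ContMDiff I 𝓘(ℝ, W) ∞ f := by
  have h3 : ContMDiff I 𝓘(ℝ, W) ∞ (fun x => W.orthogonalProjectionOnto (f x : V)) :=
    ((W.orthogonalProjectionOnto).contDiff (n := ∞)).contMDiff.comp h
  refine h3.congr fun x => ?_
  rw [Submodule.orthogonalProjectionOnto_mem_subspace_eq_self]

theorem contMDiff_of_coe_sphere {n : ℕ} [Fact (finrank ℝ V = n + 1)] [IsManifold I ∞ N] {f : N → sphere (0:V) 1}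
    (h : ContMDiff I 𝓘(ℝ, V) ∞ (fun x => (f x : V))) : ContMDiff I (𝓡 n) ∞ f :=
  h.codRestrict_sphere (fun x => (f x).2)
end gen

theorem contDiff_fact (m : ℕ) : ContDiff ℝ ∞ (fun z : ℍ[ℝ] × Hm m => fact z.1 z.2) := by
  rw [contDiff_piLp]
  intro i
  have h1 : ContDiff ℝ ∞ (fun z : ℍ[ℝ] × Hm m => (if i = 0 then z.1 else 1)) := by
    split_ifs
    · exact contDiff_fst
    · exact contDiff_const
  have h2 : ContDiff ℝ ∞ (fun z : ℍ[ℝ] × Hm m => z.2 i) := by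
    have : ContDiff ℝ ∞ (fun z : ℍ[ℝ] × Hm m => z.2) := contDiff_snd
    exact (contDiff_piLp 2).mp this i
  have h3 : ContDiff ℝ ∞ (fun z : ℍ[ℝ] × Hm m => star z.1) :=
    contDiff_star_H.comp contDiff_fst
  exact (h1.mul h2).mul h3

theorem contMDiff_coeM (m : ℕ) :
    ContMDiff (𝓡 (4*m+2)) 𝓘(ℝ, Hm m) ∞ (fun x : Mq m => ((x : S m) : Hm m)) :=
  ((S m).subtypeL.contDiff (n := ∞)).contMDiff.comp contMDiff_coe_sphere

theorem contMDiff_coeG :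
    ContMDiff (𝓡 3) 𝓘(ℝ, ℍ[ℝ]) ∞ (fun g : Gq => (g : ℍ[ℝ])) :=
  contMDiff_coe_sphere




theorem contMDiff_pair (m : ℕ) :
    ContMDiff ((𝓡 3).prod (𝓡 (4*m+2))) 𝓘(ℝ, ℍ[ℝ] × Hm m) ∞
      (fun z : Gq × Mq m => ((z.1 : ℍ[ℝ]), ((z.2 : S m) : Hm m))) := by
  have a1 : ContMDiff ((𝓡 3).prod (𝓡 (4*m+2))) 𝓘(ℝ, ℍ[ℝ]) ∞
    (fun z : Gq × Mq m => (z.1 : ℍ[ℝ])) := contMDiff_coeG.comp contMDiff_fst
  have a2 : ContMDiff ((𝓡 3).prod (𝓡 (4*m+2))) 𝓘(ℝ, Hm m) ∞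
    (fun z : Gq × Mq m => ((z.2 : S m) : Hm m)) := (contMDiff_coeM m).comp contMDiff_snd
  exact a1.prodMk_space a2

theorem contMDiff_comp_fact (m : ℕ) (f : Gq × Mq m → ℍ[ℝ] × Hm m)
    (hf : ContMDiff ((𝓡 3).prod (𝓡 (4*m+2))) 𝓘(ℝ, ℍ[ℝ] × Hm m) ∞ f) :
    ContMDiff ((𝓡 3).prod (𝓡 (4*m+2))) 𝓘(ℝ, Hm m) ∞ (fun z => fact (f z).1 (f z).2) := by
  have h := (contDiff_fact m).contMDiff.comp hf
  exact h

theorem contMDiff_act (m : ℕ) :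
    ContMDiff ((𝓡 3).prod (𝓡 (4*m+2))) (𝓡 (4*m+2)) ∞ (fun z : Gq × Mq m => z.1 • z.2) := by
  apply contMDiff_of_coe_sphere
  apply contMDiff_of_coe_submodule
  have h := contMDiff_comp_fact m _ (contMDiff_pair m)
  exact h.congr (fun z => coe_coe_smul z.1 z.2)

end Pool.Agent.MP_d84343_gt
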