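import Mathlib

open scoped Manifold ContDiff Bundle Topology
open Bundle Metric Module VectorField

noncomputable section

namespace Pool.Agent.MP_d84343_gt

section General

variable {n : ℕ}
  {M : Type*} [TopologicalSpace M] [ChartedSpace (EuclideanSpace ℝ (Fin n)) M]
  [IsManifold (𝓡 n) ∞ M] {F : Type*} [NormedAddCommGroup F] [NormedSpace ℝ F]

omit [IsManifold (𝓡 n) ∞ M] in
set_option backward.isDefEq.respectTransparency false in
theorem mvfderiv_eq_fderiv {h : M → F} {x : M} (hh : MDifferentiableAt (𝓡 n) 𝓘(ℝ, F) h x)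
    (v : TangentSpace (𝓡 n) x) :
    mvfderiv (𝓡 n) h x v =
      fderiv ℝ (h ∘ (extChartAt (𝓡 n) x).symm) (extChartAt (𝓡 n) x x) v := by
  rw [hh.mvfderiv]
  simp [writtenInExtChartAt]
  rfl

set_option backward.isDefEq.respectTransparency false in
theorem mfderiv_mpull (x : M)
    (Z : Π x : M, TangentSpace (𝓡 n) x) {u : EuclideanSpace ℝ (Fin n)}
    (hu : u ∈ (extChartAt (𝓡 n) x).target) :
    mfderivWithin 𝓘(ℝ, EuclideanSpace ℝ (Fin n)) (𝓡 n) (extChartAt (𝓡 n) x).symm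
      (Set.range (𝓡 n)) u (mpullbackWithin 𝓘(ℝ, EuclideanSpace ℝ (Fin n)) (𝓡 n)
        (extChartAt (𝓡 n) x).symm Z (Set.range (𝓡 n)) u) = Z ((extChartAt (𝓡 n) x).symm u) := by
  have hinv := isInvertible_mfderivWithin_extChartAt_symm (I := 𝓡 n) hu
  rw [mpullbackWithin_apply]
  obtain ⟨e, he⟩ := hinv
  rw [← he, ContinuousLinearMap.inverse_equiv]
  exact e.apply_symm_apply _

set_option backward.isDefEq.respectTransparency false in
theorem key {f : M → F} (hf : ContMDiff (𝓡 n) 𝓘(ℝ, F) ∞ f) (x : M)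
    (Z : Π x : M, TangentSpace (𝓡 n) x) {u : EuclideanSpace ℝ (Fin n)}
    (hu : u ∈ (extChartAt (𝓡 n) x).target) :
    mvfderiv (𝓡 n) f ((extChartAt (𝓡 n) x).symm u) (Z ((extChartAt (𝓡 n) x).symm u)) =
      fderiv ℝ (f ∘ (extChartAt (𝓡 n) x).symm) u
        (mpullbackWithin 𝓘(ℝ, EuclideanSpace ℝ (Fin n)) (𝓡 n) (extChartAt (𝓡 n) x).symm Z
          (Set.range (𝓡 n)) u) := by
  have hinv := isInvertible_mfderivWithin_extChartAt_symm (I := 𝓡 n) hu
  have h1 : mfderivWithin 𝓘(ℝ, EuclideanSpace ℝ (Fin n)) (𝓡 n) (extChartAt (𝓡 n) x).symm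
      (Set.range (𝓡 n)) u (mpullbackWithin 𝓘(ℝ, EuclideanSpace ℝ (Fin n)) (𝓡 n)
        (extChartAt (𝓡 n) x).symm Z (Set.range (𝓡 n)) u) = Z ((extChartAt (𝓡 n) x).symm u) := by
    rw [mpullbackWithin_apply]
    obtain ⟨e, he⟩ := hinv
    rw [← he, ContinuousLinearMap.inverse_equiv]
    exact e.apply_symm_apply _
  have hsymm : MDifferentiableAt 𝓘(ℝ, EuclideanSpace ℝ (Fin n)) (𝓡 n)
      (extChartAt (𝓡 n) x).symm u := by
    have h := mdifferentiableWithinAt_extChartAt_symm (I := 𝓡 n) hu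
    have hr : Set.range (𝓡 n) = Set.univ := by simp
    rw [hr] at h
    exact mdifferentiableWithinAt_univ.mp h
  have hfd : MDifferentiableAt (𝓡 n) 𝓘(ℝ, F) f ((extChartAt (𝓡 n) x).symm u) :=
    hf.mdifferentiableAt (by simp)
  have h2 := mfderiv_comp (I := 𝓘(ℝ, EuclideanSpace ℝ (Fin n))) u hfd hsymm
  rw [← h1]
  have h3 : fderiv ℝ (f ∘ (extChartAt (𝓡 n) x).symm) u =
    mfderiv 𝓘(ℝ, EuclideanSpace ℝ (Fin n)) 𝓘(ℝ, F) (f ∘ (extChartAt (𝓡 n) x).symm) u := by
    rw [mfderiv_eq_fderiv]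
  have hr : Set.range (𝓡 n) = Set.univ := by simp
  rw [h3, h2, hr, mfderivWithin_univ]
  rfl


theorem mdiffAt_push {f : M → F} (hf : ContMDiff (𝓡 n) 𝓘(ℝ, F) ∞ f)
    {X : Π x : M, TangentSpace (𝓡 n) x} {x : M}
    (hX : MDifferentiableAt (𝓡 n) (𝓡 n).tangent (fun y => (⟨y, X y⟩ : TangentBundle (𝓡 n) M)) x) :
    MDifferentiableAt (𝓡 n) 𝓘(ℝ, F) (fun y => mvfderiv (𝓡 n) f y (X y)) x := by
  have h1 : ContMDiff (𝓡 n).tangent 𝓘(ℝ, F).tangent 1 (tangentMap (𝓡 n) 𝓘(ℝ, F) f) :=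
    hf.contMDiff_tangentMap (by norm_cast)
  have h2 := (contMDiff_snd_tangentBundle_modelSpace F 𝓘(ℝ, F) (n := 1)).comp h1
  exact (h2.mdifferentiableAt (by norm_num)).comp x hX

theorem contMDiff_push {f : M → F} (hf : ContMDiff (𝓡 n) 𝓘(ℝ, F) ∞ f)
    {X : Π x : M, TangentSpace (𝓡 n) x}
    (hX : ContMDiff (𝓡 n) (𝓡 n).tangent ∞ (fun y => (⟨y, X y⟩ : TangentBundle (𝓡 n) M))) :
    ContMDiff (𝓡 n) 𝓘(ℝ, F) ∞ (fun y => mvfderiv (𝓡 n) f y (X y)) := by
  have h1 : ContMDiff (𝓡 n).tangent 𝓘(ℝ, F).tangent ∞ (tangentMap (𝓡 n) 𝓘(ℝ, F) f) :=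
    hf.contMDiff_tangentMap (by simp)
  have h2 := (contMDiff_snd_tangentBundle_modelSpace F 𝓘(ℝ, F) (n := ∞)).comp h1
  exact h2.comp hX


set_option backward.isDefEq.respectTransparency false in
theorem push_bracket {f : M → F} (hf : ContMDiff (𝓡 n) 𝓘(ℝ, F) ∞ f)
    {X Y : Π x : M, TangentSpace (𝓡 n) x}
    (hX : ContMDiff (𝓡 n) (𝓡 n).tangent ∞ (fun y => (⟨y, X y⟩ : TangentBundle (𝓡 n) M)))
    (hY : ContMDiff (𝓡 n) (𝓡 n).tangent ∞ (fun y => (⟨y, Y y⟩ : TangentBundle (𝓡 n) M)))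
    (x : M) :
    mvfderiv (𝓡 n) (fun y => mvfderiv (𝓡 n) f y (Y y)) x (X x)
      - mvfderiv (𝓡 n) (fun y => mvfderiv (𝓡 n) f y (X y)) x (Y x)
      = mvfderiv (𝓡 n) f x (mlieBracket (𝓡 n) X Y x) := by
  have hpX := contMDiff_push hf hX
  have hpY := contMDiff_push hf hY
  set u0 := extChartAt (𝓡 n) x x with hu0
  set fh := f ∘ (extChartAt (𝓡 n) x).symm with hfh
  set Xh := mpullbackWithin 𝓘(ℝ, EuclideanSpace ℝ (Fin n)) (𝓡 n) (extChartAt (𝓡 n) x).symm X
    (Set.range (𝓡 n)) with hXh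
  set Yh := mpullbackWithin 𝓘(ℝ, EuclideanSpace ℝ (Fin n)) (𝓡 n) (extChartAt (𝓡 n) x).symm Y
    (Set.range (𝓡 n)) with hYh
  have hr : Set.range (𝓡 n) = Set.univ := by simp
  have hset : ((extChartAt (𝓡 n) x).symm ⁻¹' Set.univ ∩ Set.range (𝓡 n)) = Set.univ := by simp
  have hnhds : (extChartAt (𝓡 n) x).target ∈ 𝓝 u0 := extChartAt_target_mem_nhds x
  have hmem : u0 ∈ (extChartAt (𝓡 n) x).target := mem_extChartAt_target x
  -- differentiability of the pulled back fields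
  have dX : DifferentiableAt ℝ Xh u0 := by
    have := MDifferentiableWithinAt.differentiableWithinAt_mpullbackWithin_vectorField
      (I := 𝓡 n) (s := Set.univ) (V := X) (x := x)
      ((hX.mdifferentiableAt (by simp)).mdifferentiableWithinAt)
    rw [hset] at this
    exact differentiableWithinAt_univ.mp this
  have dY : DifferentiableAt ℝ Yh u0 := by
    have := MDifferentiableWithinAt.differentiableWithinAt_mpullbackWithin_vectorField
      (I := 𝓡 n) (s := Set.univ) (V := Y) (x := x)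
      ((hY.mdifferentiableAt (by simp)).mdifferentiableWithinAt)
    rw [hset] at this
    exact differentiableWithinAt_univ.mp this
  have hfhs : ContDiffAt ℝ ∞ fh u0 := by
    have h1 := hf.contMDiffAt (x := (extChartAt (𝓡 n) x).symm u0)
    have h2 := contMDiffOn_extChartAt_symm (I := 𝓡 n) (n := ∞) x
    have h3 : ContMDiffAt 𝓘(ℝ, EuclideanSpace ℝ (Fin n)) (𝓡 n) ∞ (extChartAt (𝓡 n) x).symm u0 :=
      (h2 u0 hmem).contMDiffAt hnhds
    exact (h1.comp u0 h3).contDiffAt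
  have hB : ∀ v : TangentSpace (𝓡 n) x,
      mfderiv (𝓡 n) 𝓘(ℝ, EuclideanSpace ℝ (Fin n)) (extChartAt (𝓡 n) x) x v = v := by
    intro v
    have h1 := mfderiv_chartAt_eq_tangentCoordChange (I := 𝓡 n) (x := x) (y := x)
      (mem_chart_source _ x)
    have h2 := tangentCoordChange_self (I := 𝓡 n) (x := x) (z := x) (v := v)
      (mem_extChartAt_source x)
    have h3 : (extChartAt (𝓡 n) x : M → EuclideanSpace ℝ (Fin n)) =
      (chartAt (EuclideanSpace ℝ (Fin n)) x) := by ext; simp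
    rw [h3, h1]
    exact h2
  have hA : ∀ v : EuclideanSpace ℝ (Fin n),
      mfderivWithin 𝓘(ℝ, EuclideanSpace ℝ (Fin n)) (𝓡 n) (extChartAt (𝓡 n) x).symm
      (Set.range (𝓡 n)) u0 v = v := by
    intro v
    have h := mfderivWithin_extChartAt_symm_comp_mfderiv_extChartAt' (I := 𝓡 n)
      (mem_extChartAt_source x) (y := x)
    have h' := congrArg (fun L => L v) h
    have h'' := hB v
    simp only [ContinuousLinearMap.comp_apply] at h'
    rw [h''] at h'
    exact h'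
  have hXx : Xh u0 = X x := by
    have h1 := mfderiv_mpull x X hmem
    rw [← hXh, hA] at h1
    rw [h1]
    exact congrArg (fun y => (X y : EuclideanSpace ℝ (Fin n))) (extChartAt_to_inv x)
  have hYx : Yh u0 = Y x := by
    have h1 := mfderiv_mpull x Y hmem
    rw [← hYh, hA] at h1
    rw [h1]
    exact congrArg (fun y => (Y y : EuclideanSpace ℝ (Fin n))) (extChartAt_to_inv x)
  have dfd : DifferentiableAt ℝ (fderiv ℝ fh) u0 := by
    have : ContDiffAt ℝ 1 (fderiv ℝ fh) u0 :=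
      (hfhs.fderiv_right (m := 1) (by norm_cast))
    exact this.differentiableAt (by norm_num)
  have L : ∀ (Z W : Π x : M, TangentSpace (𝓡 n) x)
      (Zh : EuclideanSpace ℝ (Fin n) → EuclideanSpace ℝ (Fin n))
      (_ : Zh = mpullbackWithin 𝓘(ℝ, EuclideanSpace ℝ (Fin n)) (𝓡 n) (extChartAt (𝓡 n) x).symm Z
        (Set.range (𝓡 n))) (_ : DifferentiableAt ℝ Zh u0)
      (_ : ContMDiff (𝓡 n) 𝓘(ℝ, F) ∞ (fun y => mvfderiv (𝓡 n) f y (Z y))),
      mvfderiv (𝓡 n) (fun y => mvfderiv (𝓡 n) f y (Z y)) x (W x) =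
        fderiv ℝ fh u0 (fderiv ℝ Zh u0 (W x)) + fderiv ℝ (fderiv ℝ fh) u0 (W x) (Zh u0) := by
    intro Z W Zh hZh dZ hpZ
    rw [mvfderiv_eq_fderiv (hpZ.mdifferentiableAt (by simp))]
    have hev : ((fun y => mvfderiv (𝓡 n) f y (Z y)) ∘ (extChartAt (𝓡 n) x).symm) =ᶠ[𝓝 u0]
        fun u => fderiv ℝ fh u (Zh u) := by
      filter_upwards [hnhds] with u hu
      rw [hZh]
      exact key hf x Z hu
    rw [hev.fderiv_eq, fderiv_clm_apply dfd dZ]
    rfl
  have hbr : mlieBracket (𝓡 n) X Y x = fderiv ℝ Yh u0 (Xh u0) - fderiv ℝ Xh u0 (Yh u0) := by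
    rw [← mlieBracketWithin_univ, mlieBracketWithin_apply, hset, lieBracketWithin_univ]
    obtain ⟨e, he⟩ := isInvertible_mfderiv_extChartAt (I := 𝓡 n) (x := x) (mem_extChartAt_source x)
    have hinv : ∀ w, (mfderiv (𝓡 n) 𝓘(ℝ, EuclideanSpace ℝ (Fin n))
        (extChartAt (𝓡 n) x) x).inverse w = w := by
      intro w
      rw [← he, ContinuousLinearMap.inverse_equiv]
      have h1 := hB (e.symm w)
      rw [← he] at h1
      exact h1.symm.trans (e.apply_symm_apply w)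
    rw [hinv]
    rfl
  have hsymm : IsSymmSndFDerivAt ℝ fh u0 :=
    hfhs.isSymmSndFDerivAt (by simp only [minSmoothness_of_isRCLikeNormedField]; norm_cast)
  rw [L Y X Yh hYh dY hpY, L X Y Xh hXh dX hpX, hbr, hXx, hYx]
  have h1 : mvfderiv (𝓡 n) f x (fderiv ℝ Yh u0 (X x) - fderiv ℝ Xh u0 (Y x)) =
      fderiv ℝ fh u0 (fderiv ℝ Yh u0 (X x) - fderiv ℝ Xh u0 (Y x)) :=
    mvfderiv_eq_fderiv (hf.mdifferentiableAt (by simp)) _
  have h2 : (fderiv ℝ (fderiv ℝ fh) u0) (X x) (Y x) = (fderiv ℝ (fderiv ℝ fh) u0) (Y x) (X x) :=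
    hsymm (X x) (Y x)
  rw [h1, map_sub]
  rw [h2]
  abel

omit [IsManifold (𝓡 n) ∞ M] in
theorem diffAt_chart {h : M → F} {x : M} (hh : MDifferentiableAt (𝓡 n) 𝓘(ℝ, F) h x) :
    DifferentiableAt ℝ (h ∘ (extChartAt (𝓡 n) x).symm) (extChartAt (𝓡 n) x x) := by
  have h1 := MDifferentiableWithinAt.differentiableWithinAt_comp_extChartAt_symm
    (mdifferentiableWithinAt_univ.mpr hh)
  have hset : ((extChartAt (𝓡 n) x).symm ⁻¹' Set.univ ∩ Set.range (𝓡 n)) = Set.univ := by simp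
  rw [hset] at h1
  exact differentiableWithinAt_univ.mp h1

omit [IsManifold (𝓡 n) ∞ M] in
theorem mdiffAt_inner {E : Type*} [NormedAddCommGroup E] [InnerProductSpace ℝ E]
    {A B : M → E} {x : M} (hA : MDifferentiableAt (𝓡 n) 𝓘(ℝ, E) A x)
    (hB : MDifferentiableAt (𝓡 n) 𝓘(ℝ, E) B x) :
    MDifferentiableAt (𝓡 n) 𝓘(ℝ, ℝ) (fun y => inner ℝ (A y) (B y)) x := by
  have h1 : MDifferentiableAt (𝓡 n) 𝓘(ℝ, E →L[ℝ] ℝ) (fun y => innerSL ℝ (A y)) x :=
    (innerSL ℝ (E := E)).differentiableAt.comp_mdifferentiableAt hA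
  exact h1.clm_apply hB

omit [IsManifold (𝓡 n) ∞ M] in
theorem mvfderiv_inner {E : Type*} [NormedAddCommGroup E] [InnerProductSpace ℝ E]
    {A B : M → E} {x : M} (hA : MDifferentiableAt (𝓡 n) 𝓘(ℝ, E) A x)
    (hB : MDifferentiableAt (𝓡 n) 𝓘(ℝ, E) B x) (v : TangentSpace (𝓡 n) x) :
    mvfderiv (𝓡 n) (fun y => inner ℝ (A y) (B y)) x v =
      inner ℝ (A x) (mvfderiv (𝓡 n) B x v) + inner ℝ (mvfderiv (𝓡 n) A x v) (B x) := by
  rw [mvfderiv_eq_fderiv (mdiffAt_inner hA hB), mvfderiv_eq_fderiv hA, mvfderiv_eq_fderiv hB]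
  have h := fderiv_inner_apply ℝ (diffAt_chart hA) (diffAt_chart hB) v
  simpa [Function.comp_def, extChartAt_to_inv] using h

end General

section Sphere

variable {E : Type*} [NormedAddCommGroup E] [InnerProductSpace ℝ E] {n : ℕ}
  [Fact (finrank ℝ E = n + 1)]

/-- differential of the inclusion -/
def iota (x : sphere (0:E) 1) : TangentSpace (𝓡 n) x →L[ℝ] E :=
  mvfderiv (𝓡 n) ((↑) : sphere (0:E) 1 → E) x

theorem iota_inj (x : sphere (0:E) 1) : Function.Injective (iota (n := n) x) :=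
  injective_mvfderiv_subtypeVal_sphere x

theorem range_iota (x : sphere (0:E) 1) : (iota (n := n) x).range = (ℝ ∙ (x : E))ᗮ :=
  range_mvfderiv_subtypeVal x

theorem inner_iota (x : sphere (0:E) 1) (v : TangentSpace (𝓡 n) x) :
    inner ℝ (x : E) (iota x v) = 0 := by
  have h : iota x v ∈ (ℝ ∙ (x : E))ᗮ := by
    rw [← range_iota (n := n)]
    exact ⟨v, rfl⟩
  exact Submodule.mem_orthogonal_singleton_iff_inner_right.mp h

theorem inner_self (x : sphere (0:E) 1) : inner ℝ (x : E) (x : E) = 1 := by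
  rw [real_inner_self_eq_norm_sq, norm_eq_of_mem_sphere]; norm_num

theorem exists_iota (x : sphere (0:E) 1) (w : E) :
    ∃ v : TangentSpace (𝓡 n) x, iota x v = w - (inner ℝ (x : E) w) • (x : E) := by
  have h : w - (inner ℝ (x : E) w) • (x : E) ∈ (ℝ ∙ (x : E))ᗮ := by
    rw [Submodule.mem_orthogonal_singleton_iff_inner_right, inner_sub_right, inner_smul_right,
      inner_self]; ring
  rw [← range_iota (n := n)] at h
  exact h

/-- tangential projection, as a map to the tangent space -/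
def kappa (x : sphere (0:E) 1) : E →L[ℝ] TangentSpace (𝓡 n) x :=
  haveI : FiniteDimensional ℝ E := FiniteDimensional.of_finrank_pos (by
    have h : finrank ℝ E = n + 1 := Fact.out
    omega)
  LinearMap.toContinuousLinearMap
    { toFun := fun w => (exists_iota (n := n) x w).choose
      map_add' := fun a b => by
        apply iota_inj (n := n) x
        rw [map_add, (exists_iota x (a + b)).choose_spec, (exists_iota x a).choose_spec,
          (exists_iota x b).choose_spec, inner_add_right]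
        module
      map_smul' := fun c a => by
        apply iota_inj (n := n) x
        rw [RingHom.id_apply, map_smul, (exists_iota x (c • a)).choose_spec,
          (exists_iota x a).choose_spec, inner_smul_right]
        module }

theorem iota_kappa (x : sphere (0:E) 1) (w : E) :
    iota (n := n) x (kappa x w) = w - (inner ℝ (x : E) w) • (x : E) :=
  (exists_iota (n := n) x w).choose_spec

theorem kappa_iota (x : sphere (0:E) 1) (v : TangentSpace (𝓡 n) x) :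
    kappa x (iota x v) = v := by
  apply iota_inj (n := n) x
  rw [iota_kappa, inner_iota]; simp

theorem kappa_self (x : sphere (0:E) 1) : kappa (n := n) x (x : E) = 0 := by
  apply iota_inj (n := n) x
  rw [iota_kappa, inner_self]; simp


/-- ambient version of a vector field -/
def tld (X : Π x : sphere (0:E) 1, TangentSpace (𝓡 n) x) : sphere (0:E) 1 → E :=
  fun x => iota x (X x)

theorem mdiffAt_tld {X : Π x : sphere (0:E) 1, TangentSpace (𝓡 n) x} {x : sphere (0:E) 1}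
    (hX : MDifferentiableAt (𝓡 n) (𝓡 n).tangent
      (fun y => (⟨y, X y⟩ : TangentBundle (𝓡 n) (sphere (0:E) 1))) x) :
    MDifferentiableAt (𝓡 n) 𝓘(ℝ, E) (tld X) x :=
  mdiffAt_push (n := n) contMDiff_coe_sphere hX

theorem contMDiff_tld {X : Π x : sphere (0:E) 1, TangentSpace (𝓡 n) x}
    (hX : ContMDiff (𝓡 n) (𝓡 n).tangent ∞
      (fun y => (⟨y, X y⟩ : TangentBundle (𝓡 n) (sphere (0:E) 1)))) :
    ContMDiff (𝓡 n) 𝓘(ℝ, E) ∞ (tld X) :=
  contMDiff_push (n := n) contMDiff_coe_sphere hX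

/-- The Levi-Civita connection of the round sphere. -/
def sphCov (E : Type*) [NormedAddCommGroup E] [InnerProductSpace ℝ E] (n : ℕ)
    [Fact (finrank ℝ E = n + 1)] :
    CovariantDerivative (𝓡 n) (EuclideanSpace ℝ (Fin n))
      (fun x : sphere (0:E) 1 => TangentSpace (𝓡 n) x) where
  toFun σ x := (kappa x) ∘L (mvfderiv (𝓡 n) (tld σ) x)
  isCovariantDerivativeOnUniv :=
    { add := by
        intro σ σ' x hσ hσ' _
        have h : tld (σ + σ') = tld σ + tld σ' := by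
          ext y; simp [tld]
        rw [h, mvfderiv_add (mdiffAt_tld hσ) (mdiffAt_tld hσ'), ContinuousLinearMap.comp_add]
      leibniz := by
        intro σ g x hσ hg _
        have h : tld (g • σ) = g • tld σ := by
          ext y; simp [tld]
        rw [h, mvfderiv_smul hg (mdiffAt_tld hσ)]
        refine ContinuousLinearMap.ext fun v => ?_
        have h1 : kappa (n := n) x (tld σ x) = σ x := kappa_iota x (σ x)
        simp only [ContinuousLinearMap.comp_apply, add_apply,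
          smul_apply, ContinuousLinearMap.smulRight_apply, map_add, map_smul,
          h1] }

theorem sphCov_apply (σ : Π x : sphere (0:E) 1, TangentSpace (𝓡 n) x) (x : sphere (0:E) 1)
    (v : TangentSpace (𝓡 n) x) :
    sphCov E n σ x v = kappa x (mvfderiv (𝓡 n) (tld σ) x v) := rfl

theorem sphCov_torsion {X Y : Π x : sphere (0:E) 1, TangentSpace (𝓡 n) x}
    (hX : ContMDiff (𝓡 n) (𝓡 n).tangent ∞
      (fun y => (⟨y, X y⟩ : TangentBundle (𝓡 n) (sphere (0:E) 1))))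
    (hY : ContMDiff (𝓡 n) (𝓡 n).tangent ∞
      (fun y => (⟨y, Y y⟩ : TangentBundle (𝓡 n) (sphere (0:E) 1)))) (x : sphere (0:E) 1) :
    sphCov E n Y x (X x) - sphCov E n X x (Y x) = mlieBracket (𝓡 n) X Y x := by
  rw [sphCov_apply, sphCov_apply, ← map_sub]
  have h := push_bracket (n := n) (M := sphere (0:E) 1) (F := E) contMDiff_coe_sphere hX hY x
  have h' : mvfderiv (𝓡 n) (tld Y) x (X x) - mvfderiv (𝓡 n) (tld X) x (Y x) =
    iota x (mlieBracket (𝓡 n) X Y x) := h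
  rw [h', kappa_iota]

theorem inner_tld (X : Π x : sphere (0:E) 1, TangentSpace (𝓡 n) x) (x : sphere (0:E) 1) :
    inner ℝ (x : E) (tld X x) = 0 := inner_iota x (X x)

theorem coe_mdiffAt (x : sphere (0:E) 1) :
    MDifferentiableAt (𝓡 n) 𝓘(ℝ, E) ((↑) : sphere (0:E) 1 → E) x :=
  (contMDiff_coe_sphere (m := 1) x).mdifferentiableAt one_ne_zero

theorem inner_mvfderiv_tld {X : Π x : sphere (0:E) 1, TangentSpace (𝓡 n) x}
    (hX : ContMDiff (𝓡 n) (𝓡 n).tangent ∞
      (fun y => (⟨y, X y⟩ : TangentBundle (𝓡 n) (sphere (0:E) 1)))) (x : sphere (0:E) 1)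
    (v : TangentSpace (𝓡 n) x) :
    inner ℝ (x : E) (mvfderiv (𝓡 n) (tld X) x v) = - inner ℝ (iota x v) (tld X x) := by
  have h1 := mvfderiv_inner (n := n) (coe_mdiffAt x)
    ((contMDiff_tld hX).mdifferentiableAt (by simp) (x := x)) v
  have h2 : (fun y : sphere (0:E) 1 => (inner ℝ (y : E) (tld X y) : ℝ)) = fun _ => 0 := by
    ext y; exact inner_tld X y
  rw [h2, mvfderiv_const] at h1
  have h3 : mvfderiv (𝓡 n) ((↑) : sphere (0:E) 1 → E) x v = iota x v := rfl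
  rw [h3] at h1
  simp only [zero_apply] at h1
  linarith

theorem iota_sphCov {X : Π x : sphere (0:E) 1, TangentSpace (𝓡 n) x}
    (hX : ContMDiff (𝓡 n) (𝓡 n).tangent ∞
      (fun y => (⟨y, X y⟩ : TangentBundle (𝓡 n) (sphere (0:E) 1)))) (x : sphere (0:E) 1)
    (v : TangentSpace (𝓡 n) x) :
    iota x (sphCov E n X x v) = mvfderiv (𝓡 n) (tld X) x v
      + (inner ℝ (iota x v) (tld X x) : ℝ) • (x : E) := by
  rw [sphCov_apply, iota_kappa, inner_mvfderiv_tld hX]
  module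

theorem sphCov_metric {Y Z : Π x : sphere (0:E) 1, TangentSpace (𝓡 n) x}
    (hY : ContMDiff (𝓡 n) (𝓡 n).tangent ∞
      (fun y => (⟨y, Y y⟩ : TangentBundle (𝓡 n) (sphere (0:E) 1))))
    (hZ : ContMDiff (𝓡 n) (𝓡 n).tangent ∞
      (fun y => (⟨y, Z y⟩ : TangentBundle (𝓡 n) (sphere (0:E) 1))))
    (x : sphere (0:E) 1) (v : TangentSpace (𝓡 n) x) :
    mvfderiv (𝓡 n) (fun y : sphere (0:E) 1 => (inner ℝ (tld Y y) (tld Z y) : ℝ)) x v
      = inner ℝ (iota x (sphCov E n Y x v)) (tld Z x)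
        + inner ℝ (tld Y x) (iota x (sphCov E n Z x v)) := by
  have h0 : (inner ℝ (tld Y x) (x : E) : ℝ) = 0 := by
    rw [real_inner_comm]; exact inner_tld Y x
  rw [mvfderiv_inner ((contMDiff_tld hY).mdifferentiableAt (by simp))
    ((contMDiff_tld hZ).mdifferentiableAt (by simp)), iota_sphCov hY, iota_sphCov hZ,
    inner_add_left, inner_add_right, inner_smul_left, inner_smul_right, inner_tld Z x, h0]
  ring

theorem tld_sphCov {Y Z : Π x : sphere (0:E) 1, TangentSpace (𝓡 n) x}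
    (hZ : ContMDiff (𝓡 n) (𝓡 n).tangent ∞
      (fun y => (⟨y, Z y⟩ : TangentBundle (𝓡 n) (sphere (0:E) 1)))) :
    tld (fun y => sphCov E n Z y (Y y)) = (fun y => mvfderiv (𝓡 n) (tld Z) y (Y y)) +
      (fun y => (inner ℝ (tld Y y) (tld Z y) : ℝ)) • ((↑) : sphere (0:E) 1 → E) := by
  ext y
  exact iota_sphCov hZ y (Y y)

theorem mvfderiv_tld_sphCov {Y Z : Π x : sphere (0:E) 1, TangentSpace (𝓡 n) x}
    (hY : ContMDiff (𝓡 n) (𝓡 n).tangent ∞
      (fun y => (⟨y, Y y⟩ : TangentBundle (𝓡 n) (sphere (0:E) 1))))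
    (hZ : ContMDiff (𝓡 n) (𝓡 n).tangent ∞
      (fun y => (⟨y, Z y⟩ : TangentBundle (𝓡 n) (sphere (0:E) 1))))
    (x : sphere (0:E) 1) (v : TangentSpace (𝓡 n) x) :
    kappa (n := n) x (mvfderiv (𝓡 n) (tld (fun y => sphCov E n Z y (Y y))) x v) =
      kappa x (mvfderiv (𝓡 n) (fun y => mvfderiv (𝓡 n) (tld Z) y (Y y)) x v)
        + (inner ℝ (tld Y x) (tld Z x) : ℝ) • v := by
  have hA : MDifferentiableAt (𝓡 n) 𝓘(ℝ, E) (fun y => mvfderiv (𝓡 n) (tld Z) y (Y y)) x :=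
    (contMDiff_push (contMDiff_tld hZ) hY).mdifferentiableAt (by simp)
  have hI : MDifferentiableAt (𝓡 n) 𝓘(ℝ, ℝ)
      (fun y : sphere (0:E) 1 => (inner ℝ (tld Y y) (tld Z y) : ℝ)) x :=
    mdiffAt_inner ((contMDiff_tld hY).mdifferentiableAt (by simp))
      ((contMDiff_tld hZ).mdifferentiableAt (by simp))
  rw [tld_sphCov hZ, mvfderiv_add hA (hI.smul (coe_mdiffAt x)),
    mvfderiv_smul hI (coe_mdiffAt x)]
  have h3 : mvfderiv (𝓡 n) ((↑) : sphere (0:E) 1 → E) x v = iota x v := rfl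
  simp only [add_apply, smul_apply, ContinuousLinearMap.smulRight_apply, map_add, map_smul,
    h3, kappa_iota, kappa_self, smul_zero, add_zero]

theorem sphCov_curv {X Y Z : Π x : sphere (0:E) 1, TangentSpace (𝓡 n) x}
    (hX : ContMDiff (𝓡 n) (𝓡 n).tangent ∞
      (fun y => (⟨y, X y⟩ : TangentBundle (𝓡 n) (sphere (0:E) 1))))
    (hY : ContMDiff (𝓡 n) (𝓡 n).tangent ∞
      (fun y => (⟨y, Y y⟩ : TangentBundle (𝓡 n) (sphere (0:E) 1))))
    (hZ : ContMDiff (𝓡 n) (𝓡 n).tangent ∞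
      (fun y => (⟨y, Z y⟩ : TangentBundle (𝓡 n) (sphere (0:E) 1))))
    (x : sphere (0:E) 1) :
    sphCov E n (fun y => sphCov E n Z y (Y y)) x (X x)
      - sphCov E n (fun y => sphCov E n Z y (X y)) x (Y x)
      - sphCov E n Z x (mlieBracket (𝓡 n) X Y x)
      = (inner ℝ (tld Y x) (tld Z x) : ℝ) • X x - (inner ℝ (tld X x) (tld Z x) : ℝ) • Y x := by
  rw [sphCov_apply (fun y => sphCov E n Z y (Y y)), sphCov_apply (fun y => sphCov E n Z y (X y)),
    sphCov_apply Z, mvfderiv_tld_sphCov hY hZ, mvfderiv_tld_sphCov hX hZ]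
  have h := push_bracket (contMDiff_tld hZ) hX hY x
  rw [← h, map_sub]
  abel

end Sphere

end Pool.Agent.MP_d84343_gt
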